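import Pool.Agent.H75.GG.Targets2

/-!
# DEP: short strings of the oracle depend only on short cells
-/

set_option autoImplicit false

namespace Pool.Agent.H12.GG

open Finset Filter Pool.Agent.H6.NB Pool.Agent.H70.OQ Pool.Agent.H75.GS Pool.Agent.H75.GG

lemma length_pst (n : ℕ) (x : Xn n) (z : Ys n 0) : (pst n x z).length = 3 * n + 1 := by
  simp only [pst, List.length_cons, List.length_append, List.length_ofFn]
  ring

lemma length_ust {G : Dat} {n : ℕ} (y : Spc G n) (k : Fin (G.r n)) :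
    (ust y k).length = 3 * n + 1 := length_pst _ _ _

lemma agc_symm {G : Dat} {l : ℕ} {ω ω' : Cfg G} (h : AgC l ω ω') : AgC l ω' ω :=
  ⟨fun n hn => (h.1 n hn).symm, fun s hs => (h.2 s hs).symm⟩

lemma agc_cfS {G : Dat} {l : ℕ} {ω ω' : Cfg G} (h : AgC l ω ω') {n : ℕ} (hn : n ≤ l) :
    cfS ω n = cfS ω' n := by
  unfold cfS
  rw [h.1 n hn]

lemma agc_cfT {G : Dat} {l : ℕ} {ω ω' : Cfg G} (h : AgC l ω ω') {n : ℕ} (hn : n ≤ l) :
    cfT ω n = cfT ω' n := by
  unfold cfT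
  rw [h.1 n hn]

lemma agc_cfK {G : Dat} {l : ℕ} {ω ω' : Cfg G} (h : AgC l ω ω') {s : List Bool}
    (hs : s.length ≤ l) : cfK ω s = cfK ω' s := by
  unfold cfK
  rw [h.2 s hs]

lemma agc_cfP {G : Dat} {l : ℕ} {ω ω' : Cfg G} (h : AgC l ω ω') {s : List Bool}
    (hs : s.length ≤ l) : cfP ω s = cfP ω' s := by
  unfold cfP
  rw [h.2 s hs]

lemma seed_half (hSEE : T_SEE) (hCOD : Pool.Agent.H6.NB.T_COD) {G : Dat} {l : ℕ} {ω ω' : Cfg G}
    (h : AgC l ω ω') {w : List Bool} (hw : w.length ≤ l) (ht : seed ω w = true) :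
    seed ω' w = true := by
  obtain ⟨a1, a2, a3, a4, a5⟩ := hSEE G ω
  obtain ⟨b1, -, b3, b4, -⟩ := hSEE G ω'
  rcases a5 w ht with ⟨n, x, z, rfl⟩ | ⟨s, rfl⟩ | ⟨s, i, v, rfl⟩
  · rw [length_pst] at hw
    have hn : n ≤ l := by omega
    rcases lt_or_ge n G.n0 with h0 | h0
    · rw [a2 n x z h0] at ht
      exact absurd ht (by simp)
    · rw [a1 n x z h0] at ht
      rw [b1 n x z h0, ← agc_cfS h hn, ← agc_cfT h hn]
      exact ht
  · have hs : s.length ≤ l := by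
      simp only [key, List.length_cons] at hw
      omega
    rw [a3] at ht
    rw [b3, ← agc_cfK h hs]
    exact ht
  · have hs : s.length ≤ l := by
      simp only [blk, List.length_cons, hCOD.2] at hw
      omega
    rw [a4] at ht
    rw [b4, ← agc_cfP h hs]
    exact ht

lemma seed_agree (hSEE : T_SEE) (hCOD : Pool.Agent.H6.NB.T_COD) {G : Dat} {l : ℕ} {ω ω' : Cfg G}
    (h : AgC l ω ω') {w : List Bool} (hw : w.length ≤ l) : seed ω w = seed ω' w := by
  rcases hb : seed ω' w with _ | _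
  · rcases ha : seed ω w with _ | _
    · rfl
    · rw [seed_half hSEE hCOD h hw ha] at hb
      exact absurd hb (by simp)
  · exact seed_half hSEE hCOD (agc_symm h) hw hb

open Classical in
lemma ign_congr {acc : List Bool → (List Bool → Bool) → Prop} (hA : LocA acc)
    {U U' : ℕ → Set (List Bool)} {s : List Bool} {O O' : List Bool → Bool}
    (hU : ∀ v : List Bool, v.length ^ 2 ≤ s.length → (v ∈ U s.length ↔ v ∈ U' s.length))
    (hO : ∀ v : List Bool, v.length ^ 2 ≤ s.length → O v = O' v) :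
    ign acc U s O ↔ ign acc U' s O' := by
  refine hA s _ _ fun v hv => ?_
  unfold mks
  by_cases h : v ∈ U s.length
  · rw [if_pos h, if_pos ((hU v hv).1 h)]
  · rw [if_neg h, if_neg (fun h' => h ((hU v hv).2 h')), hO v hv]

lemma le_of_sq {n m : ℕ} {v : List Bool} (h1 : v.length = 3 * n + 1) (h2 : v.length ^ 2 ≤ m) :
    n ≤ m := by
  have : v.length ≤ v.length ^ 2 := by nlinarith [Nat.zero_le v.length]
  omega

lemma spt_half {G : Dat} {l : ℕ} {ω ω' : Cfg G} (h : AgC l ω ω') {m : ℕ} (hm : m ≤ l)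
    {v : List Bool} (hv : v.length ^ 2 ≤ m) (hs : v ∈ Spt ω m) : v ∈ Spt ω' m := by
  obtain ⟨n, k, h0, h1, h2⟩ := hs
  have hn : n ≤ l := (le_of_sq (by rw [h2, length_ust]) hv).trans hm
  exact ⟨n, k, h0, h1, by rw [h2, agc_cfS h hn]⟩

lemma lat_half {G : Dat} {l : ℕ} {ω ω' : Cfg G} (h : AgC l ω ω') {m : ℕ} (hm : m ≤ l) {n : ℕ}
    {k : Fin (G.r n)} {v : List Bool} (hv : v.length ^ 2 ≤ m) (hs : v ∈ Lat ω n k m) :
    v ∈ Lat ω' n k m := by
  obtain ⟨n', k', h0, h1, h2, h3⟩ := hs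
  have hn : n' ≤ l := (le_of_sq (by rw [h3, length_ust]) hv).trans hm
  exact ⟨n', k', h0, h1, h2, by rw [h3, agc_cfS h hn]⟩

lemma enk_half {G : Dat} {ω ω' : Cfg G} {l : ℕ} (hA : LocA G.acc) (h : AgC l ω ω')
    (hw : ∀ w : List Bool, w.length ≤ l → wld ω w = wld ω' w) {n : ℕ} {k : Fin (G.r n)}
    (hn : n ≤ l) (hH : G.H n ≤ l) {s : List Bool} (hs : s ∈ Enk ω n k) : s ∈ Enk ω' n k := by
  obtain ⟨h1, h2⟩ := hs
  have hsl : s.length ≤ l := h1.le.trans hH
  have hU : ∀ v : List Bool, v.length ^ 2 ≤ s.length →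
      (v ∈ Lat ω n k s.length ↔ v ∈ Lat ω' n k s.length) := fun v hv =>
    ⟨lat_half h hsl hv, lat_half (agc_symm h) hsl hv⟩
  have hO : ∀ v : List Bool, v.length ^ 2 ≤ s.length → wld ω v = wld ω' v := fun v hv =>
    hw v (by nlinarith [Nat.zero_le v.length])
  refine ⟨h1, fun hc => h2 ?_⟩
  have e1 : ign G.acc (Lat ω n k) s (wld ω) ↔ ign G.acc (Lat ω' n k) s (wld ω') :=
    ign_congr hA hU hO
  have e2 : ign G.acc (Lat ω n k) s (msk (ust (cfS ω n) k) (wld ω)) ↔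
      ign G.acc (Lat ω' n k) s (msk (ust (cfS ω' n) k) (wld ω')) := by
    refine ign_congr hA hU fun v hv => ?_
    unfold msk
    rw [agc_cfS h hn, hO v hv]
  rw [e1, e2]
  exact hc

theorem pf_DEP (hLCG : T_LCG) (hSEE : T_SEE) (hBUX : T_BUX) (hCOD : Pool.Agent.H6.NB.T_COD) :
    T_DEP := by
  intro G ω ω' l hA h
  obtain ⟨a1, -, -, a4, -⟩ := hLCG G ω hA
  obtain ⟨-, -, -, b4, -⟩ := hLCG G ω' hA
  have hw : ∀ w : List Bool, w.length ≤ l → wld ω w = wld ω' w := by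
    refine hBUX _ _ _ _ _ _ l a1 ?_ a4 b4 fun w hw => seed_agree hSEE hCOD h hw
    intro s O hs
    exact ign_congr hA (fun v hv => ⟨spt_half h hs.le hv, spt_half (agc_symm h) hs.le hv⟩)
      fun _ _ => rfl
  refine ⟨hw, fun n k hn hH => Set.ext fun s => ⟨enk_half hA h hw hn hH,
    enk_half hA (agc_symm h) (fun w hwl => (hw w hwl).symm) hn hH⟩⟩

end Pool.Agent.H12.GG
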