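import Pool.Agent.H75.GG.Targets
import Pool.Agent.H4.GSQ.SEL

/-!
# SLP: few rows are bad for some sampler
-/

set_option autoImplicit false

namespace Pool.Agent.H12.GG

open Finset Filter Pool.Agent.H6.NB Pool.Agent.H70.OQ Pool.Agent.H75.GS Pool.Agent.H75.GG
open Pool.Agent.H4.GSQ

open Classical in
theorem pf_SLP (hBBH : T_BBH) (hHTS : T_HTS) (hMGS : T_MGS) : T_SLP := by
  intro X ι _ N0 ET Ex S E LS M τS η h3 h4 h5 hη
  have hhit : ∀ i x, 0 ≤ (S i).hit (Ex i x) (E x) := by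
    intro i x
    unfold Sampler.hit
    refine sum_nonneg fun z _ => ?_
    split_ifs
    · positivity
    · exact le_rfl
  -- the samplers
  have hsum : ∀ i, ∑ x ∈ N0, (S i).hit (Ex i x) (E x) ≤ 2 * M + 8 * τS * M := by
    intro i
    obtain ⟨a1, -, a3⟩ := hHTS (S i) (ET i) (ET i)
    have b1 : ∑ x ∈ N0, (S i).hit (ET i) (E x) ≤ M := a3 X N0 E M h5
    have b2 := hMGS X N0 (S i).alg (ET i) (Ex i) LS M (h3 i).1 (h4 i)
    have b3 : ∀ x ∈ N0, (S i).hit (Ex i x) (E x) ≤ 2 * (S i).hit (ET i) (E x) +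
        2 * (4 * (S i).alg.T * mg (S i).alg (ET i) (Ex i x)) := by
      intro x _
      have c1 := (hHTS (S i) (ET i) (Ex i x)).1 (E x)
      have c2 := (hBBH (S i).alg (ET i) (Ex i x)).2.2.1
      linarith
    have hT0 : (0 : ℝ) ≤ (S i).alg.T := Nat.cast_nonneg _
    have hM0 : (0 : ℝ) ≤ M := Nat.cast_nonneg _
    calc ∑ x ∈ N0, (S i).hit (Ex i x) (E x) ≤ ∑ x ∈ N0, (2 * (S i).hit (ET i) (E x) +
        2 * (4 * (S i).alg.T * mg (S i).alg (ET i) (Ex i x))) := sum_le_sum b3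
      _ = 2 * ∑ x ∈ N0, (S i).hit (ET i) (E x) +
          8 * (S i).alg.T * ∑ x ∈ N0, mg (S i).alg (ET i) (Ex i x) := by
        rw [sum_add_distrib, ← mul_sum, ← mul_sum, ← mul_sum]; ring
      _ ≤ 2 * M + 8 * (S i).alg.T * ((S i).alg.T * M) := by gcongr
      _ = 2 * M + 8 * ((S i).alg.T ^ 2) * M := by ring
      _ ≤ 2 * M + 8 * τS * M := by
        have := (h3 i).2
        gcongr
  set F : X → ℝ := fun x => ∑ i, (S i).hit (Ex i x) (E x) with hF
  have hF0 : ∀ x, 0 ≤ F x := fun x => sum_nonneg fun i _ => hhit i x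
  have hFs : ∑ x ∈ N0, F x ≤ Fintype.card ι * (2 * M + 8 * τS * M) := by
    rw [hF, sum_comm]
    calc ∑ i, ∑ x ∈ N0, (S i).hit (Ex i x) (E x) ≤ ∑ _i : ι, (2 * M + 8 * τS * M) := by
          gcongr with i _
          exact hsum i
      _ = _ := by rw [sum_const, nsmul_eq_mul, card_univ]
  have hmk := sel_markov N0 F (fun x _ => hF0 x) η
  have hsub : (N0.filter fun x => ∃ i, η < (S i).hit (Ex i x) (E x)) ⊆
      N0.filter fun x => η < F x := by
    intro x hx
    rw [mem_filter] at hx ⊢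
    obtain ⟨hx0, i, hi⟩ := hx
    exact ⟨hx0, hi.trans_le (single_le_sum (f := fun i => (S i).hit (Ex i x) (E x))
      (fun i _ => hhit i x) (mem_univ i))⟩
  have hc : ((N0.filter fun x => ∃ i, η < (S i).hit (Ex i x) (E x)).card : ℝ) ≤
      ((N0.filter fun x => η < F x).card : ℝ) := by
    exact_mod_cast card_le_card hsub
  calc ((N0.filter fun x => ∃ i, η < (S i).hit (Ex i x) (E x)).card : ℝ) * η
      ≤ ((N0.filter fun x => η < F x).card : ℝ) * η := by gcongr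
    _ ≤ ∑ x ∈ N0, F x := hmk
    _ ≤ _ := hFs

end Pool.Agent.H12.GG
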